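import Pool.Agent.W547.UB.Homs

/-!
# The Tate conjecture for the motives generated by an abelian variety of CM type in independent blocks
# over a number field

Let `A` be an abelian variety over a number field `F` which is, over a finite extension, isogenous to a
product `X` of any number of abelian varieties `A i` with complex multiplication by CM fields `E i`,
with CM types `Φ i`.
The factors are divided into blocks (the block of the factor `A i` is `b i`), such that for each block
there is an automorphism of the field of complex numbers that acts as the complex conjugation on all
embeddings of the CM fields in this block and trivially on all embeddings of the CM fields in the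
other blocks (the intersection of the Galois closure of the fields of the block with the compositum of
the Galois closures of the other fields is totally real; for one block this is no condition). Each
block is of one of the following kinds:

* its factors have dimension at most three, and any two of them whose CM fields have the same Galois
  closure over `ℚ` have isomorphic CM types, unless these CM fields are Galois over `ℚ`;
* its factors are factors (up to isogeny) of one abelian variety of CM type of dimension at most
  five, each with any multiplicity;
* its factors have the same CM type, with a CM field of degree at most fourteen;
* its factors are factors (up to isogeny) of one nondegenerate abelian variety of CM type, of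
  arbitrary dimension, each with any multiplicity.

For example `X` may be any power of any abelian variety of CM type of dimension at most five, or any
power of a simple abelian variety of CM type of dimension at most seven, or a product of such powers
for which the Galois closures of the CM fields are linearly disjoint. The conditions hold for all
powers of `X` if they hold for `X`.

Let `V = V_ℓ(A) = ℚ_ℓ ⊗ H_1(X, ℚ)` be the `ℓ`-adic realization of `h_1(A)`, with the action `ρ` of
the Galois group `G`, the cyclotomic character `χ` and the Weil pairing `ω` of a polarization, and
let `γ ∈ G` be the Frobenius element of one place of `F` above a prime number `p ≠ ℓ` of good
reduction that splits completely in the fields `E i`. It acts by the multiplication by `π ∈ ∏ E i`,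
with absolute values given by the theorem of Shimura and Taniyama.

Then each homomorphism `V ^ {⊗ s} (c) → V ^ {⊗ t} (d)` of `ℓ`-adic realizations that commutes with a
subgroup of finite index of the Galois group is a linear combination, with coefficients in `ℚ_ℓ`, of
homomorphisms given by classes in `H^{s + t}(X ^ {s + t}, ℚ)` which are polynomials in classes of
divisors and pull-backs, along homomorphisms `X ^ {s + t} → Y`, of Weil classes of imaginary
quadratic fields on abelian fourfolds and sixfolds `Y` of CM type and of split Weil type.

The Weil classes on abelian fourfolds of Weil type and on abelian sixfolds of split Weil type are
algebraic by theorems of Markman. With these theorems the map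
`Hom(M, M') ⊗ ℚ_ℓ → Hom_{G_F}(M_ℓ, M'_ℓ)` is surjective (and so bijective) for all pure motives `M`,
`M'` in the tensor category generated by `h_1(A)`.
-/

namespace Pool.Agent.Results.MP_3703a7_ag.CMIndependentBlocks

open Module Pool.Agent.W547.KB Pool.Agent.W530.NF Pool.Agent.W547.TM Pool.Agent.W547.UB

/-- `X` a product of abelian varieties of CM type in independent blocks, `V` its rational Tate
module with the action of the Galois group, `γ` one Frobenius element: all homomorphisms
`V ^ {⊗ s} (c) → V ^ {⊗ t} (d)` are combinations of homomorphisms given by polynomials in classes of
divisors and pull-backs of split Weil classes on fourfolds and sixfolds. -/
theorem result (X : CMAV) {J : Type} (b : X.I → J) (hX : IndependentBlocks X b)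
    (ℓ : ℕ) [Fact ℓ.Prime] {V : Type} [AddCommGroup V] [Module ℚ_[ℓ] V]
    (T : Realization X ℚ_[ℓ] V) (w : AbsoluteValue ℂ ℝ) (q : ℕ) (π : X.H1) (γ : T.G)
    (h : IsFrobenius T w q π γ) : Pool.Agent.W547.TM.HomsGenerated T :=
  Pool.Agent.W547.UB.homs X b hX T w q π γ h

end Pool.Agent.Results.MP_3703a7_ag.CMIndependentBlocks
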