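import Pool.Agent.W530.NF.Main

/-!
# The Tate conjecture for the pure motives generated by abelian varieties of CM type over number
fields: reduction to special classes of codimension two with one fixed factor

Fix any abelian variety `B` of CM type, for instance one elliptic curve with complex
multiplication. Let `X` be any abelian variety of CM type over a number field `F` (up to isogeny and
after a finite extension of `F` a product of abelian varieties of CM types `(E i, Φ i)`), let
`V = V_ℓ(X) = ℚ_ℓ ⊗ H_1(X, ℚ)` be the `ℓ`-adic realization of `h_1(X)`, with the action `ρ` of the
Galois group `G`, the cyclotomic character `χ` and the Weil pairing `ω` of a polarization, and let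
`γ ∈ G` be the Frobenius element of one place of `F` above a prime number `p ≠ ℓ` of good reduction
that splits completely in the fields `E i`. It acts by the multiplication by `π ∈ ∏ E i`, with
absolute values given by the theorem of Shimura and Taniyama.

Then each homomorphism `V ^ {⊗ s} (c) → V ^ {⊗ t} (d)` of `ℓ`-adic realizations that commutes with a
subgroup of finite index of the Galois group is a linear combination, with coefficients in `ℚ_ℓ`, of
homomorphisms given by classes in `H^{s + t}(X ^ {s + t}, ℚ)` from the smallest system `Gen B` of
rational classes on abelian varieties of CM type which contains

* the classes of degree zero and the Hodge classes of degree two (classes of divisors),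
* the classes `Tr (α x₀ ∧ x₁ ∧ x₂ ∧ t)` of degree four on the products `A₀ × A₁ × A₂ × B`, where
  `A i` has CM type `(L, Φ i)`, `L` is a Galois CM field containing the field of `B`,
  `Φ 0 ∩ Φ 1 = {ρ}`, and `Φ 2` and the CM type of `L` induced from `B` meet exactly in the conjugate
  of `ρ`,

and which is closed under linear combinations, cup products, pull-backs along homomorphisms and
push-forwards along projections. These operations preserve algebraic classes. So the map
`Hom(M, M') ⊗ ℚ_ℓ → Hom_{G_F}(M_ℓ, M'_ℓ)` is surjective for all pure motives `M`, `M'` in the tensor
category generated by the motives `h_1(X)` of all abelian varieties of CM type as soon as these very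
special classes of codimension two, in `H³(A₀ × A₁ × A₂) ⊗ H¹(B)`, are algebraic.

The proof: by the absolute values, a monomial in the embeddings which is multiplied by a power of `q`
under a power of `γ` is balanced; the forms with values in `ℚ_ℓ` are combinations of rational forms
with the same property; the classes belonging to balanced monomials are generated, by exchanging
conjugate embeddings (`Pool.Agent.W547.KB`).
-/

namespace Pool.Agent.Results.MP_3703a7_ag.FixedFactorCM

open Pool.Agent.W547.KB Pool.Agent.H204R3.GP Pool.Agent.W530.NF
open scoped TensorProduct

/-- `B` any CM type, `X` any abelian variety of CM type, `V` its rational Tate module with the action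
of the Galois group: all homomorphisms `V ^ {⊗ s} (c) → V ^ {⊗ t} (d)` are combinations of
homomorphisms given by classes in `Gen B`. -/
theorem result (B : CMPair) (X : CMAV) (ℓ : ℕ) [Fact ℓ.Prime] {V : Type} [AddCommGroup V]
    [Module ℚ_[ℓ] V] (T : Realization X ℚ_[ℓ] V)
    (w : AbsoluteValue ℂ ℝ) (q : ℕ) (π : X.H1) (γ : T.G) (h : IsFrobenius T w q π γ) :
    HomsGenerated B T :=
  homs B X T w q π γ h

end Pool.Agent.Results.MP_3703a7_ag.FixedFactorCM
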