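import Mathlib
import Pool.Agent.W437.UN.Main

/-!
# Tate classes on products of an arbitrary motive with motives of unitary type

Let `F` be an algebraically closed field of characteristic zero, for instance an algebraic closure
of the field of `p`-adic numbers, `Γ` a group, for instance the Galois group of a number field, and
`χ` a character of `Γ`, for instance the cyclotomic character. Let `M` be any finite-dimensional
representation of `Γ` over `F`, for instance the cohomology of an arbitrary smooth projective
variety `Y`; it is not assumed to be semisimple. Let `V i` be finitely many representations of `Γ`
whose images are big (`IsBig`), and `V' i` the dual of `V i` twisted by a power of `χ`. For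
instance `V i ⊕ V' i` is the first cohomology group of an abelian variety `A i` whose endomorphism
algebra is an imaginary quadratic field, for instance the Jacobian of a Picard curve. Assume that
each `V i` is independent of `M` and the previous `V j` (`IsIndep`): for some Frobenius element the
determinant on `V i`, and for some Frobenius element the quotient of two eigenvalues on `V i`, are
multiplicatively independent of the eigenvalues on `M` and on the previous `V j ⊕ V' j`. Let `A` be a
system of tensors which is closed under products and permutations, for instance the classes of
algebraic cycles. If `A` contains the Tate classes of the tensor powers of `M` and the duality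
tensors in `V i ⊗ V' i`, then it contains all Tate classes of the tensor powers of
`M ⊕ ⨁ (V i ⊕ V' i)`. (All definitions are in the file `Pool/Agent/W437/UN/Defs.lean`.)
-/

namespace Pool.Agent.Results.MP_3703a7_ag.LinearFactors

open Pool.Agent.W437.UN

/-- Let `M` be any representation of `Γ`, and let `V i` be representations with big images, each of
which is independent of `M` and of the previous ones. Then every system `A` with the formal
properties `IsSystem` contains all Tate classes of the tensor powers of the sum of `M`, the `V i`
and their twisted duals. -/
theorem result {F : Type} [Field F] [CharZero F] [IsAlgClosed F] {Γ : Type} [Group Γ]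
    {χ : Γ →* Fˣ} {ι : Type} [Fintype ι] [LinearOrder ι] {k : ι → ℤ} {N : ι → ℕ} {l : ℕ}
    (M : Γ →* Matrix (Fin l) (Fin l) F) (V : ∀ i, LinRep F χ (k i) (N i))
    (hbig : ∀ i, (V i).IsBig) (hindep : ∀ i, IsIndep M V i)
    (A : ∀ κ : Type, Submodule F ((κ → Bas l N) → F)) (hA : IsSystem M V A) {κ : Type}
    [Fintype κ] [DecidableEq κ] (c : (κ → Bas l N) → F) (hc : IsTateClass M V c) : c ∈ A κ :=
  main hbig hindep hA c hc

end Pool.Agent.Results.MP_3703a7_ag.LinearFactors
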