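import Pool.Agent.W547.GAW.Main

/-!
# The Tate conjecture for tensor products of motives of surfaces and motives of Shimura type

Let `F` be a number field with absolute Galois group `Γ`, let `S_0, ..., S_(r-1)` be smooth
projective surfaces over `F` with `b_1 = 0`, and let `T_i` be the transcendental part of
`H^2(S_i, ℚ_ℓ(1))` (the orthogonal complement of the classes of divisors over the algebraic
closure), `T = ⊕ T_i`.  The structure `GR` consists of the representation of `Γ` on `T`, the
intersection form `Q`, the Lie algebra `L` of the image of `Γ`, an embedding `ι` of `ℚ_ℓ` into the
complex numbers (that is `ℂ_ℓ`), and the Sen operator `x` at a place above `ℓ`: it lies in `L ⊗ ℂ`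
and is `1`, `0`, `-1` on the pieces of the Hodge-Tate decomposition, which have dimensions `p_i`,
`q_i`, `p_i` on `T_i`, where `p_i` is the geometric genus; `c` says to which surface a basis
vector of `T` belongs.

The conditions `GR.Big`: the endomorphisms of `T` commuting with an open subgroup of `Γ` are the
scalars on the `T_i`; the identity component of the Zariski closure of the image of `Γ` in `GL(T)`
is reductive, in the form of the unitary trick (`GR.Red`); `p_i` and `q_i` are coprime and
`2 p_i^2 (p_i^2 + 1) < (q_i - 2 p_i) (q_i + p_i)`.  We assume `p_i ≥ 2` for all `i`.

Let `W` be a representation of `Γ` of Shimura type, such as `W = Hom(N, N')`, where `N` and `N'`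
are `ℓ`-adic realizations of motives generated by arbitrary curves, abelian varieties, K3 surfaces,
hyperkaehler varieties, cubic fourfolds, ..., or twists of these.  The structure `GW` consists of
the representation `ρ`, the Lie algebra `M` of the image of `Γ` in the automorphisms of `T ⊕ W` (a
form on `T` with values in `W` is invariant under an open subgroup of `Γ` if and only if it is
killed by `M`; the projection of `M` to the operators on `T` contains `L`), and the Sen operator
`(x, y)`, which lies in `M ⊗ ℂ` (theorem of Sen).  The only condition on `W` is `adj`: the
eigenvalues of the commutator with `y` on the projection of `M` to the operators on `W` are `1`,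
`0`, `-1` (this projection is the Lie algebra of the image of `Γ` in `GL(W)`).  For `W` built from
abelian varieties this holds because the Hodge-Tate weights of the Tate modules are `0` and `1`,
for K3 surfaces because the image is orthogonal and `h^(2,0) = 1`.  Nothing else is assumed: no
condition on endomorphisms, Mumford-Tate groups or Tate classes of `W`.

By Poincare duality and the Kuenneth formula a homomorphism from `H(X)(a) ⊗ N` to `H(X')(b) ⊗ N'`,
where `X` and `X'` are products of surfaces `S_i`, is an element of `H(X × X') ⊗ W`, a form `t`
with `m` variables in `ℚ_ℓ^s ⊕ T` (`Fin s`: the algebraic classes of the surfaces, `d` says to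
which surface such a class belongs) and values in `W`; `IsTateW` says that it is compatible with
the action of an open subgroup of `Γ`.  The map `f` divides the factors `1, ..., m` into blocks of
equal surfaces; the elements for products of symmetric powers `Sym^N(S_i)`, one for each block with
`N` elements, are symmetric under the permutations of the factors in each block (`hsym`); the `N`
are arbitrary, and `f` may be injective.  `D` is a set of surfaces such that, for `i` not in `D`,
`T_i` occurs, in the Kuenneth components of `t`, in less than `rank T_i` of the symmetric powers.

We prove: `t` is compatible with an open subgroup if and only if it is a sum of products `α v`,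
where `v` in `W` is invariant under an open subgroup (for `W = Hom(N, N')` it is a homomorphism of
Galois modules from `N` to `N'`) and `α` (`algE`) is a combination of products of

* algebraic classes on some of the factors `S_(a j)`,
* transcendental parts of the diagonals on pairs of equal factors,
* determinants `det T_i` on `rank T_i` factors, for some `i ∈ D`.

So (`D = ∅`; over `F` take the invariants of a finite quotient of `Γ`) the Tate conjecture, that is
the surjectivity of `ρ_p`, holds for the motives `h(X) ⊗ N` and `h(X') ⊗ N'`, and for their direct
summands and twists, where `X × X'` is any product of symmetric powers of the surfaces with less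
than `rank T_i` factors belonging to `S_i`, if and only if it holds for `N` and `N'` (if `X` and
`X'` are not empty, the condition for `N`, `N'` is a special case).  For `N = h^1(A)`,
`N' = h^1(A')` with arbitrary abelian varieties `A`, `A'` it holds by the theorem of Faltings; so
the Tate conjecture holds for `h(X) ⊗ h^1(A)` and `h(X') ⊗ h^1(A')` without further conditions.
-/

open Matrix Finset Module

namespace Pool.Agent.Results.MP_3703a7_ag.SurfacesTimesShimuraType

open Pool.Agent.W544.PG Pool.Agent.W544.FF Pool.Agent.W547.GAW

/-- Homomorphisms between tensor products of motives of products of symmetric powers of surfaces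
and motives of Shimura type. -/
theorem result {ℓ : ℕ} [Fact ℓ.Prime] {Γ : Type} [Group Γ] [TopologicalSpace Γ]
    {n r w s m k : ℕ} (T : GR ℚ_[ℓ] Γ n) (c : Fin n → Fin r) (p q : Fin r → ℕ)
    (hT : T.Big c p q) (hp : ∀ i, 2 ≤ p i) (W : GW T w) (d : Fin s → Fin r)
    (a : Fin m → Fin r) (f : Fin m → Fin k) (hf : ∀ j j', f j = f j' → a j = a j')
    (D : Finset (Fin r)) (t : (Fin m → Fin s ⊕ Fin n) → Fin w → ℚ_[ℓ])
    (hta : ∀ J L, t J L ≠ 0 → ∀ j, Sum.elim d c (J j) = a j)
    (hsym : ∀ π : Equiv.Perm (Fin m), (∀ j, f (π j) = f j) →
      ∀ J, t (fun j => J (π j)) = t J)
    (htr : ∀ J L, t J L ≠ 0 → ∀ i, i ∉ D →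
      (univ.filter fun y : Fin k => ∃ j b, f j = y ∧ J j = Sum.inr b ∧ c b = i).card <
        2 * p i + q i) :
    IsTateW T W.ρ t ↔ t ∈ W.tateW c d a D :=
  main W hT hp d a f hf D t hta hsym htr

end Pool.Agent.Results.MP_3703a7_ag.SurfacesTimesShimuraType
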