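import Pool.Agent.W519.NF.Hom

/-!
# Homomorphisms between motives of diagonal hypersurfaces over number fields

Let `m` be a positive integer which is not divisible by `4` and has at most two different odd prime
factors, and let `F` be a number field over which the cyclotomic polynomial of order `8 * m ^ 2` is
irreducible (for instance every number field whose discriminant is prime to `2 * m`). Every
homomorphism between the `p`-adic realizations of two motives in the tensor category generated by the
diagonal hypersurfaces of degree `m` over `F` which commutes with the Galois group of `F` is a
combination of standard algebraic correspondences: if the line of `s` has a nonzero equivariant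
homomorphism to a Tate twist of the line of `t`, the character of the corresponding class, which
consists of the entries of `t` and the negatives of the entries of `s`, belongs to the family
generated by the standard characters.
-/

namespace Pool.Agent.Results.MP_3703a7_ag.ZDiagonalHoms

open Pool.Agent.H916R2 Pool.Agent.W519 NumberField Polynomial

theorem result {F : Type} [Field F] [NumberField F] {m : ℕ} (h4 : ¬ 4 ∣ m)
    (hm : (m.primeFactors.erase 2).card ≤ 2) (hirr : Irreducible (cyclotomic (8 * m ^ 2) F))
    {s t : Multiset (ZMod m × 𝓞 F)} (hst : s + t ≠ 0)
    (heven : Even (Multiset.card s + Multiset.card t))
    (h0 : ∀ z ∈ s + t, z.1 ≠ 0 ∧ z.2 ≠ 0) (hsum : (s.map Prod.fst).sum = (t.map Prod.fst).sum)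
    (hH : HomClass F m s t) :
    Generated m (fun _ => False) (t.map Prod.fst + s.map fun z => -z.1) :=
  main_hom h4 hm hirr hst heven h0 hsum hH

end Pool.Agent.Results.MP_3703a7_ag.ZDiagonalHoms
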